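import Pool.Agent.Zk93.PC.Mas

/-! # Mean squares of an exponential sum on short intervals and its weighted forms -/

set_option autoImplicit false

open Finset MeasureTheory Set Filter Topology

namespace Pool.Agent.Zk93.WP

open Pool.Agent.Zk93.PC

variable {ι : Type*}

/-- the weight -/
noncomputable def wk (c u : ℝ) : ℝ := c ^ 2 / (c ^ 2 + u ^ 2)

lemma wk_two (u : ℝ) : wk 2 u = wc 0 u := by
  unfold wk wc
  rw [zero_mul, neg_zero, Real.exp_zero]
  norm_num

lemma wk_scale {c : ℝ} (hc : 0 < c) (u : ℝ) : wk c u = wc 0 (2 / c * u) := by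
  unfold wk wc
  rw [zero_mul, neg_zero, Real.exp_zero, mul_one, div_mul_eq_mul_div, div_pow]
  have h1 : 0 < c ^ 2 + u ^ 2 := by positivity
  have h2 : 0 < 4 + (2 * u) ^ 2 / c ^ 2 := by positivity
  rw [div_eq_div_iff h1.ne' h2.ne']
  field_simp
  ring

lemma EW_scale {c : ℝ} (hc : 0 < c) (Z : Finset ι) (m g : ι → ℝ) (y : ℝ) :
    EW (wk c) Z m g y = EW (wc 0) Z m (fun s => 2 / c * g s) (c / 2 * y) := by
  unfold EW
  refine sum_congr rfl fun a _ => sum_congr rfl fun b _ => ?_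
  have e1 : 2 / c * g a - 2 / c * g b = 2 / c * (g a - g b) := by ring
  have e2 : c / 2 * y * (2 / c * (g a - g b)) = y * (g a - g b) := by field_simp
  rw [wk_scale hc]
  simp only [e1, e2]

lemma Nq_scale {c : ℝ} (hc : 0 < c) (Z : Finset ι) (m g : ι → ℝ) (v : ℝ) :
    Nq Z m (fun s => 2 / c * g s) (c / 2 * v) = Nq Z m g v := by
  unfold Nq
  refine sum_congr rfl fun a _ => sum_congr rfl fun b _ => ?_
  have e2 : c / 2 * v * (2 / c * g a - 2 / c * g b) = v * (g a - g b) := by field_simp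
  rw [e2]

lemma EWk_line {c : ℝ} (hc : 0 < c) (Z : Finset ι) (m g : ι → ℝ) (y : ℝ) :
    (Integrable fun v : ℝ => Real.exp (-(c * |v - y|)) * Nq Z m g v) ∧
    EW (wk c) Z m g y = c / 2 * ∫ v : ℝ, Real.exp (-(c * |v - y|)) * Nq Z m g v := by
  obtain ⟨h1, h2⟩ := EW_line Z m (fun s => 2 / c * g s) (c / 2 * y)
  have e : (fun v : ℝ => Real.exp (-(2 * |c / 2 * v - c / 2 * y|)) *
      Nq Z m (fun s => 2 / c * g s) (c / 2 * v)) =
      fun v : ℝ => Real.exp (-(c * |v - y|)) * Nq Z m g v := by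
    funext v
    rw [Nq_scale hc, ← mul_sub, abs_mul, abs_of_pos (by positivity : 0 < c / 2)]
    congr 2
    ring
  have h3 := h1.comp_mul_left' (by positivity : c / 2 ≠ 0)
  rw [e] at h3
  refine ⟨h3, ?_⟩
  rw [EW_scale hc, h2, ← e]
  have h4 := Measure.integral_comp_mul_left (fun v : ℝ => Real.exp (-(2 * |v - c / 2 * y|)) *
      Nq Z m (fun s => 2 / c * g s) v) (c / 2)
  rw [h4, abs_of_pos (by positivity), smul_eq_mul]
  field_simp

lemma Nq_cont (Z : Finset ι) (m g : ι → ℝ) : Continuous (Nq Z m g) := by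
  unfold Nq
  fun_prop

lemma EW_cont (W : ℝ → ℝ) (Z : Finset ι) (m g : ι → ℝ) : Continuous (EW W Z m g) := by
  unfold EW
  fun_prop

lemma Nq_le (Z : Finset ι) (m g : ι → ℝ) (hm : ∀ s ∈ Z, 0 ≤ m s) (v : ℝ) :
    Nq Z m g v ≤ Nq Z m g 0 := by
  unfold Nq
  refine sum_le_sum fun a ha => sum_le_sum fun b hb => ?_
  rw [zero_mul, Real.cos_zero]
  exact mul_le_mul_of_nonneg_left (Real.cos_le_one _) (mul_nonneg (hm a ha) (hm b hb))

/-- the derivative -/
noncomputable def G1 (c : ℝ) (Z : Finset ι) (m g : ι → ℝ) (y : ℝ) : ℝ :=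
  ∑ a ∈ Z, ∑ b ∈ Z, m a * m b * (wk c (g a - g b) * -((g a - g b) * Real.sin (y * (g a - g b))))

lemma EW_form (W : ℝ → ℝ) (Z : Finset ι) (m g : ι → ℝ) (y : ℝ) :
    EW W Z m g y = ∑ a ∈ Z, ∑ b ∈ Z, m a * m b * (W (g a - g b) * Real.cos (y * (g a - g b))) := by
  unfold EW
  refine sum_congr rfl fun a _ => sum_congr rfl fun b _ => ?_
  ring

lemma hasDeriv0 (c : ℝ) (Z : Finset ι) (m g : ι → ℝ) (y : ℝ) :
    HasDerivAt (EW (wk c) Z m g) (G1 c Z m g y) y := by
  have h : HasDerivAt (fun y => ∑ a ∈ Z, ∑ b ∈ Z, m a * m b *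
      (wk c (g a - g b) * Real.cos (y * (g a - g b)))) (G1 c Z m g y) y := by
    unfold G1
    refine HasDerivAt.fun_sum fun a _ => HasDerivAt.fun_sum fun b _ => ?_
    have h1 : HasDerivAt (fun y : ℝ => y * (g a - g b)) (g a - g b) y := by
      simpa using (hasDerivAt_id y).mul_const (g a - g b)
    have h2 := (h1.cos.const_mul (wk c (g a - g b))).const_mul (m a * m b)
    refine h2.congr_deriv ?_
    ring
  have e : (fun y => ∑ a ∈ Z, ∑ b ∈ Z, m a * m b *
      (wk c (g a - g b) * Real.cos (y * (g a - g b)))) = EW (wk c) Z m g := by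
    funext y
    rw [EW_form]
  rwa [e] at h

lemma hasDeriv1 {c : ℝ} (hc : 0 < c) (Z : Finset ι) (m g : ι → ℝ) (y : ℝ) :
    HasDerivAt (G1 c Z m g) (c ^ 2 * (EW (wk c) Z m g y - Nq Z m g y)) y := by
  have h : HasDerivAt (fun y => ∑ a ∈ Z, ∑ b ∈ Z, m a * m b *
      (wk c (g a - g b) * -((g a - g b) * Real.sin (y * (g a - g b)))))
      (∑ a ∈ Z, ∑ b ∈ Z, m a * m b *
      (wk c (g a - g b) * -((g a - g b) * (Real.cos (y * (g a - g b)) * (g a - g b))))) y := by
    refine HasDerivAt.fun_sum fun a _ => HasDerivAt.fun_sum fun b _ => ?_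
    have h1 : HasDerivAt (fun y : ℝ => y * (g a - g b)) (g a - g b) y := by
      simpa using (hasDerivAt_id y).mul_const (g a - g b)
    exact (((h1.sin.const_mul (g a - g b)).neg).const_mul (wk c (g a - g b))).const_mul (m a * m b)
  refine h.congr_deriv ?_
  rw [EW_form]
  unfold Nq
  rw [← sum_sub_distrib, mul_sum]
  refine sum_congr rfl fun a _ => ?_
  rw [← sum_sub_distrib, mul_sum]
  refine sum_congr rfl fun b _ => ?_
  unfold wk
  have h1 : 0 < c ^ 2 + (g a - g b) ^ 2 := by positivity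
  field_simp
  ring

lemma G1_cont (c : ℝ) (Z : Finset ι) (m g : ι → ℝ) : Continuous (G1 c Z m g) := by
  unfold G1
  fun_prop

/-- the mean square on an interval -/
lemma window_eq {c : ℝ} (hc : 0 < c) (Z : Finset ι) (m g : ι → ℝ) (y z : ℝ) :
    ∫ t in y..z, Nq Z m g t = (∫ t in y..z, EW (wk c) Z m g t) -
      (c ^ 2)⁻¹ * (G1 c Z m g z - G1 c Z m g y) := by
  have h1 : ∫ t in y..z, c ^ 2 * (EW (wk c) Z m g t - Nq Z m g t) =
      G1 c Z m g z - G1 c Z m g y := by
    refine intervalIntegral.integral_eq_sub_of_hasDerivAt (fun t _ => hasDeriv1 hc Z m g t) ?_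
    have := EW_cont (wk c) Z m g
    have := Nq_cont Z m g
    exact (Continuous.intervalIntegrable (by fun_prop) _ _)
  rw [← h1, intervalIntegral.integral_const_mul, intervalIntegral.integral_sub
    ((EW_cont _ Z m g).intervalIntegrable _ _) ((Nq_cont Z m g).intervalIntegrable _ _)]
  field_simp
  ring

/-- smallness of the derivative -/
lemma G1_small {c : ℝ} (hc : 0 < c) (Z : Finset ι) (m g : ι → ℝ) {X ε δ y : ℝ} (hX : 0 ≤ X)
    (hε : 0 ≤ ε) (hδ : 0 < δ)
    (h : ∀ t : ℝ, y - δ ≤ t → t ≤ y + δ → |EW (wk c) Z m g t - X| ≤ ε * X) :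
    |G1 c Z m g y| ≤ (2 * ε / δ + c ^ 2 * (1 + ε) * δ) * X := by
  set G := EW (wk c) Z m g with hG
  set D := G1 c Z m g with hD
  have hd0 : ∀ t, HasDerivAt G (D t) t := fun t => hasDeriv0 c Z m g t
  have hd1 : ∀ t, HasDerivAt D (c ^ 2 * (G t - Nq Z m g t)) t := fun t => hasDeriv1 hc Z m g t
  have hBd : ∀ t : ℝ, y - δ ≤ t → t ≤ y + δ → c ^ 2 * (G t - Nq Z m g t) ≤ c ^ 2 * (1 + ε) * X := by
    intro t h1 h2
    have h3 := (abs_le.1 (h t h1 h2)).2
    have h4 := Nq_nonneg Z m g t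
    have h5 : 0 < c ^ 2 := by positivity
    nlinarith
  have hy := h y (by linarith) (by linarith)
  have hB0 : 0 ≤ c ^ 2 * (1 + ε) * X := by positivity
  rw [abs_le]
  constructor
  · -- to the right
    obtain ⟨ξ, hξ, h1⟩ := exists_hasDerivAt_eq_slope G D (show y < y + δ by linarith)
      (fun t _ => (hd0 t).continuousAt.continuousWithinAt) (fun t _ => hd0 t)
    obtain ⟨ζ, hζ, h2⟩ := exists_hasDerivAt_eq_slope D (fun t => c ^ 2 * (G t - Nq Z m g t))
      hξ.1 (fun t _ => (hd1 t).continuousAt.continuousWithinAt) (fun t _ => hd1 t)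
    have h3 := hBd ζ (by linarith [hζ.1]) (by linarith [hζ.2, hξ.2])
    have h4 := h (y + δ) (by linarith) (by linarith)
    have e1 : D ξ * δ = G (y + δ) - G y := by
      rw [h1, add_sub_cancel_left, div_mul_cancel₀ _ hδ.ne']
    have hξy : 0 < ξ - y := by linarith [hξ.1]
    have e2 : D ξ - D y = (c ^ 2 * (G ζ - Nq Z m g ζ)) * (ξ - y) := by
      rw [h2]
      field_simp
    have h5 : D ξ - D y ≤ c ^ 2 * (1 + ε) * X * δ := by
      rw [e2]
      calc (c ^ 2 * (G ζ - Nq Z m g ζ)) * (ξ - y) ≤ (c ^ 2 * (1 + ε) * X) * (ξ - y) :=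
            mul_le_mul_of_nonneg_right h3 hξy.le
        _ ≤ _ := mul_le_mul_of_nonneg_left (by linarith [hξ.2]) hB0
    have h6 : -(2 * ε / δ * X) ≤ D ξ := by
      have h7 : -(2 * ε * X) ≤ D ξ * δ := by
        rw [e1]
        have := (abs_le.1 h4).1
        have := (abs_le.1 hy).2
        linarith
      have h8 : -(2 * ε / δ * X) * δ = -(2 * ε * X) := by field_simp
      rw [← h8] at h7
      exact le_of_mul_le_mul_right h7 hδ
    have e3 : (2 * ε / δ + c ^ 2 * (1 + ε) * δ) * X = 2 * ε / δ * X + c ^ 2 * (1 + ε) * X * δ := by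
      ring
    rw [e3]
    linarith
  · obtain ⟨ξ, hξ, h1⟩ := exists_hasDerivAt_eq_slope G D (show y - δ < y by linarith)
      (fun t _ => (hd0 t).continuousAt.continuousWithinAt) (fun t _ => hd0 t)
    obtain ⟨ζ, hζ, h2⟩ := exists_hasDerivAt_eq_slope D (fun t => c ^ 2 * (G t - Nq Z m g t))
      hξ.2 (fun t _ => (hd1 t).continuousAt.continuousWithinAt) (fun t _ => hd1 t)
    have h3 := hBd ζ (by linarith [hζ.1, hξ.1]) (by linarith [hζ.2])
    have h4 := h (y - δ) (by linarith) (by linarith)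
    have e1 : D ξ * δ = G y - G (y - δ) := by
      rw [h1, sub_sub_cancel, div_mul_cancel₀ _ hδ.ne']
    have hξy : 0 < y - ξ := by linarith [hξ.2]
    have e2 : D y - D ξ = (c ^ 2 * (G ζ - Nq Z m g ζ)) * (y - ξ) := by
      rw [h2]
      field_simp
    have h5 : D y - D ξ ≤ c ^ 2 * (1 + ε) * X * δ := by
      rw [e2]
      calc (c ^ 2 * (G ζ - Nq Z m g ζ)) * (y - ξ) ≤ (c ^ 2 * (1 + ε) * X) * (y - ξ) :=
            mul_le_mul_of_nonneg_right h3 hξy.le
        _ ≤ _ := mul_le_mul_of_nonneg_left (by linarith [hξ.1]) hB0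
    have h6 : D ξ ≤ 2 * ε / δ * X := by
      have h7 : D ξ * δ ≤ 2 * ε * X := by
        rw [e1]
        have := (abs_le.1 h4).1
        have := (abs_le.1 hy).2
        linarith
      have h8 : (2 * ε / δ * X) * δ = 2 * ε * X := by field_simp
      rw [← h8] at h7
      exact le_of_mul_le_mul_right h7 hδ
    have e3 : (2 * ε / δ + c ^ 2 * (1 + ε) * δ) * X = 2 * ε / δ * X + c ^ 2 * (1 + ε) * X * δ := by
      ring
    rw [e3]
    linarith

/-- from the weighted form to the mean squares -/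
theorem windows_of {c : ℝ} (hc : 0 < c) (Z : Finset ι) (m g : ι → ℝ) {X ε δ h y : ℝ} (hX : 0 ≤ X)
    (hε : 0 ≤ ε) (hδ : 0 < δ) (hh : 0 ≤ h)
    (hG : ∀ t : ℝ, y - δ ≤ t → t ≤ y + h + δ → |EW (wk c) Z m g t - X| ≤ ε * X) :
    |(∫ t in y..(y + h), Nq Z m g t) - h * X| ≤
      (h * ε + 2 * (c ^ 2)⁻¹ * (2 * ε / δ + c ^ 2 * (1 + ε) * δ)) * X := by
  rw [window_eq hc]
  have h1 := G1_small hc Z m g hX hε hδ (y := y) fun t h1 h2 => hG t h1 (by linarith)
  have h2 := G1_small hc Z m g hX hε hδ (y := y + h) fun t h1 h2 => hG t (by linarith) h2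
  have h3 : |(∫ t in y..(y + h), EW (wk c) Z m g t) - h * X| ≤ h * ε * X := by
    have e1 : (∫ t in y..(y + h), EW (wk c) Z m g t) - h * X =
        ∫ t in y..(y + h), (EW (wk c) Z m g t - X) := by
      rw [intervalIntegral.integral_sub ((EW_cont _ Z m g).intervalIntegrable _ _)
        intervalIntegrable_const, intervalIntegral.integral_const, smul_eq_mul]
      ring
    rw [e1, ← Real.norm_eq_abs]
    have h4 := intervalIntegral.norm_integral_le_of_norm_le_const (a := y) (b := y + h)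
      (C := ε * X) (f := fun t => EW (wk c) Z m g t - X) (fun t ht => by
        rw [uIoc_of_le (by linarith)] at ht
        exact hG t (by linarith [ht.1]) (by linarith [ht.2]))
    have e2 : |y + h - y| = h := by
      rw [show y + h - y = h by ring, abs_of_nonneg hh]
    rw [e2] at h4
    linarith
  set E := (2 * ε / δ + c ^ 2 * (1 + ε) * δ) * X with hE
  have hci : 0 < (c ^ 2)⁻¹ := by positivity
  have h5 : |G1 c Z m g (y + h) - G1 c Z m g y| ≤ 2 * E := by
    have := abs_sub (G1 c Z m g (y + h)) (G1 c Z m g y)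
    linarith
  have h6 : |(c ^ 2)⁻¹ * (G1 c Z m g (y + h) - G1 c Z m g y)| ≤ (c ^ 2)⁻¹ * (2 * E) := by
    rw [abs_mul, abs_of_pos hci]
    exact mul_le_mul_of_nonneg_left h5 hci.le
  have e3 : (∫ t in y..(y + h), EW (wk c) Z m g t) -
      (c ^ 2)⁻¹ * (G1 c Z m g (y + h) - G1 c Z m g y) - h * X =
      ((∫ t in y..(y + h), EW (wk c) Z m g t) - h * X) -
      (c ^ 2)⁻¹ * (G1 c Z m g (y + h) - G1 c Z m g y) := by ring
  rw [e3]
  have h7 := abs_sub ((∫ t in y..(y + h), EW (wk c) Z m g t) - h * X)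
    ((c ^ 2)⁻¹ * (G1 c Z m g (y + h) - G1 c Z m g y))
  have e4 : (h * ε + 2 * (c ^ 2)⁻¹ * (2 * ε / δ + c ^ 2 * (1 + ε) * δ)) * X =
      h * ε * X + (c ^ 2)⁻¹ * (2 * E) := by
    rw [hE]
    ring
  rw [e4]
  linarith

end Pool.Agent.Zk93.WP
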